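import Pool.Agent.TH267.MZ.LocKzC
import Pool.Agent.TH999.MV.NonStat
import Pool.Agent.TH606.MV.SumL
set_option autoImplicit false

/-! # Kernel bound near a point, degenerate curvature (project MZ of helper407, job 3020) -/

namespace Pool.Agent.TH267.MZ

open MeasureTheory Set Complex
open scoped ENNReal NNReal Real ContDiff ComplexConjugate
open Pool.Agent.TH407 Pool.Agent.TH407.MZ Pool.Agent.TH407.MV Pool.Agent.TH883.MV

lemma dK_nonneg {κ : ℝ} (hκ : 0 ≤ κ) (x1 x2 x3 x4 : ℝ) : 0 ≤ dK κ x1 x2 x3 x4 := by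
  unfold dK; positivity

lemma dS_dK {κ M : ℝ} (hκ : 0 ≤ κ) (hM : κ ≤ M) (x1 x2 x3 x4 : ℝ) :
    κ * dS x1 x2 x3 x4 ≤ (1 + M) * dK κ x1 x2 x3 x4 := by
  unfold dS dK
  have h1 := abs_nonneg (x1 + x2 - x3 - x4)
  have h2 := abs_nonneg (x1 * x2 - x3 * x4)
  have h3 : κ * |x1 + x2 - x3 - x4| ≤ M * |x1 + x2 - x3 - x4| := mul_le_mul_of_nonneg_right hM h1
  have h4 : 0 ≤ κ * |x1 * x2 - x3 * x4| := mul_nonneg hκ h2
  have h5 : 0 ≤ M * (κ * |x1 * x2 - x3 * x4|) := mul_nonneg (hκ.trans hM) h4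
  nlinarith

theorem phase_boundsz (hS : SumLem) {a0 b0 δ0 ε0 : ℝ} (ha : 0 < a0) (hb : b0 ≠ 0 ∨ δ0 ≠ 0) :
    ∃ r c0 L0 : ℝ, 0 < r ∧ r ≤ 1 ∧ 0 < c0 ∧ 0 < L0 ∧
    (∀ (δ : ℝ) (y : ℝ × ℝ) (x : ℝ), |δ - δ0| ≤ r → |y.1 - a0| ≤ 2 * r →
      |y.2 - b0| ≤ 2 * r → |x| ≤ r → a0 / 2 ≤ wv δ y x) ∧
    ∀ δ ε : ℝ, |δ - δ0| ≤ r → |ε - ε0| ≤ r → ∀ x1 x2 x3 x4 : ℝ, |x1| ≤ r → |x2| ≤ r →
    |x3| ≤ r → |x4| ≤ r → ∃ j : Fin 2, ∀ y : ℝ × ℝ,
      |y.1 - a0| ≤ 2 * r → |y.2 - b0| ≤ 2 * r →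
      c0 * dK (ε ^ 2 + δ ^ 2) x1 x2 x3 x4 ≤
        |S4 (fun x => IJ (PM a0) j 1 (pt y x δ ε)) x1 x2 x3 x4| ∧
      |S4 (fun x => IJ (PM a0) j 2 (pt y x δ ε)) x1 x2 x3 x4| ≤
        L0 * dK (ε ^ 2 + δ ^ 2) x1 x2 x3 x4 ∧
      |S4 (fun x => IJ (PM a0) j 3 (pt y x δ ε)) x1 x2 x3 x4| ≤
        L0 * dK (ε ^ 2 + δ ^ 2) x1 x2 x3 x4 := by
  obtain ⟨ρ, c, C, hρ, hρ1, hc, hC, hdet⟩ := det_low (ε0 := ε0) ha hb
  set M := (|ε0| + 1) ^ 2 + (|δ0| + 1) ^ 2 with hM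
  have hM0 : 0 ≤ M := by positivity
  obtain ⟨k, hk, hlin⟩ := lin_alg hC hM0 hc
  set η := k / (2 * (1 + M)) with hη
  have hηp : 0 < η := by positivity
  -- approximations
  obtain ⟨ρA1, hA1, hA1', apA1⟩ := approx hS a0 b0 δ0 ε0 (IJ_smooth H1_smooth 0 1) hηp
  obtain ⟨ρB1, hB1, hB1', apB1⟩ := approx hS a0 b0 δ0 ε0 (IJ_smooth H1_smooth 1 1) hηp
  obtain ⟨ρA2, hA2, hA2', apA2⟩ := approx hS a0 b0 δ0 ε0 (IJ_smooth (H2_smooth ha) 0 1) hηp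
  obtain ⟨ρB2, hB2, hB2', apB2⟩ := approx hS a0 b0 δ0 ε0 (IJ_smooth (H2_smooth ha) 1 1) hηp
  -- upper bounds
  have hup1 : ∀ (j : Fin 2) (k : ℕ), ∃ L : ℝ, 0 < L ∧ ∀ r : ℝ, 0 < r → r ≤ 1 →
      ∀ (δ ε : ℝ) (y : ℝ × ℝ), |δ - δ0| ≤ r →
      |ε - ε0| ≤ r → |y.1 - a0| ≤ 2 * r → |y.2 - b0| ≤ 2 * r → ∀ x1 x2 x3 x4 : ℝ, |x1| ≤ r →
      |x2| ≤ r → |x3| ≤ r → |x4| ≤ r →
      |S4 (fun x => IJ H1 j k (pt y x δ ε)) x1 x2 x3 x4| ≤ L * dS x1 x2 x3 x4 :=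
    fun j k => upper hS a0 b0 δ0 ε0 (IJ_smooth H1_smooth j k)
  have hup2 : ∀ (j : Fin 2) (k : ℕ), ∃ L : ℝ, 0 < L ∧ ∀ r : ℝ, 0 < r → r ≤ 1 →
      ∀ (δ ε : ℝ) (y : ℝ × ℝ), |δ - δ0| ≤ r →
      |ε - ε0| ≤ r → |y.1 - a0| ≤ 2 * r → |y.2 - b0| ≤ 2 * r → ∀ x1 x2 x3 x4 : ℝ, |x1| ≤ r →
      |x2| ≤ r → |x3| ≤ r → |x4| ≤ r →
      |S4 (fun x => IJ (H2 a0) j k (pt y x δ ε)) x1 x2 x3 x4| ≤ L * dS x1 x2 x3 x4 :=
    fun j k => upper hS a0 b0 δ0 ε0 (IJ_smooth (H2_smooth ha) j k)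
  choose L1 hL1 hL1b using hup1
  choose L2 hL2 hL2b using hup2
  set Ls := (L1 0 2 + L1 0 3 + L1 1 2 + L1 1 3) + (L2 0 2 + L2 0 3 + L2 1 2 + L2 1 3) with hLs
  have hLsp : 0 < Ls := by
    have := hL1 0 2
    have := hL1 0 3
    have := hL1 1 2
    have := hL1 1 3
    have := hL2 0 2
    have := hL2 0 3
    have := hL2 1 2
    have := hL2 1 3
    positivity
  have hLle : ∀ (j : Fin 2) (k : ℕ), (k = 2 ∨ k = 3) → L1 j k ≤ Ls ∧ L2 j k ≤ Ls := by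
    intro j k hk
    have p1 := hL1 0 2
    have p2 := hL1 0 3
    have p3 := hL1 1 2
    have p4 := hL1 1 3
    have q1 := hL2 0 2
    have q2 := hL2 0 3
    have q3 := hL2 1 2
    have q4 := hL2 1 3
    fin_cases j <;> rcases hk with rfl | rfl
    · exact ⟨show L1 0 2 ≤ Ls by linarith, show L2 0 2 ≤ Ls by linarith⟩
    · exact ⟨show L1 0 3 ≤ Ls by linarith, show L2 0 3 ≤ Ls by linarith⟩
    · exact ⟨show L1 1 2 ≤ Ls by linarith, show L2 1 2 ≤ Ls by linarith⟩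
    · exact ⟨show L1 1 3 ≤ Ls by linarith, show L2 1 3 ≤ Ls by linarith⟩
  -- the region
  have hW0 : W (pt (a0, b0) 0 δ0 ε0) = a0 := by
    show wv δ0 (a0, b0) 0 = a0
    simp [wv, cd_zero]
  obtain ⟨ρW, hρW, hcW⟩ := Metric.continuousAt_iff.1
    (W_smooth.continuous.continuousAt (x := pt (a0, b0) 0 δ0 ε0)) (a0 / 2) (by positivity)
  set r := min (min (min ρ (ρW / 4)) (min ρA1 ρB1)) (min ρA2 ρB2) with hr
  have hrp : 0 < r := by positivity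
  have r1 : r ≤ ρ := (min_le_left _ _).trans ((min_le_left _ _).trans (min_le_left _ _))
  have r2 : r ≤ ρW / 4 := (min_le_left _ _).trans ((min_le_left _ _).trans (min_le_right _ _))
  have r3 : r ≤ ρA1 := (min_le_left _ _).trans ((min_le_right _ _).trans (min_le_left _ _))
  have r4 : r ≤ ρB1 := (min_le_left _ _).trans ((min_le_right _ _).trans (min_le_right _ _))
  have r5 : r ≤ ρA2 := (min_le_right _ _).trans (min_le_left _ _)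
  have r6 : r ≤ ρB2 := (min_le_right _ _).trans (min_le_right _ _)
  have hr1 : r ≤ 1 := r1.trans hρ1
  refine ⟨r, k / 2, Ls * (1 + M), hrp, hr1, by positivity, by positivity, ?_, ?_⟩
  · intro δ y x hδ hy1 hy2 hx
    have h1 := hcW (dist_pt (y := y) (x := x) (δ := δ) (ε := ε0) (a0 := a0) (b0 := b0) (δ0 := δ0)
      (ε0 := ε0) (ρ := ρW) (by linarith) (by linarith) (by linarith) (by linarith)
      (by rw [sub_self, abs_zero]; exact hρW))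
    rw [Real.dist_eq, hW0, abs_lt] at h1
    have h2 : W (pt y x δ ε0) = wv δ y x := rfl
    rw [h2] at h1
    linarith [h1.1]
  intro δ ε hδ hε x1 x2 x3 x4 h1 h2 h3 h4
  have hκ : 0 ≤ ε ^ 2 + δ ^ 2 := by positivity
  have hκM : ε ^ 2 + δ ^ 2 ≤ M := by
    have hε1 : |ε| ≤ |ε0| + 1 := by
      have h3 := abs_sub_abs_le_abs_sub ε ε0
      linarith
    have hδ1 : |δ| ≤ |δ0| + 1 := by
      have h3 := abs_sub_abs_le_abs_sub δ δ0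
      linarith
    rw [hM, ← sq_abs ε, ← sq_abs δ]
    exact add_le_add (pow_le_pow_left₀ (abs_nonneg _) hε1 2)
      (pow_le_pow_left₀ (abs_nonneg _) hδ1 2)
  have hdSK := dS_dK hκ hκM x1 x2 x3 x4
  have hdS0 := dS_nonneg x1 x2 x3 x4
  have hdK0 := dK_nonneg hκ x1 x2 x3 x4
  obtain ⟨u1, u2, u3, u4, u5⟩ := hdet δ ε (hδ.trans r1) (hε.trans r1)
  obtain ⟨b1, b2, b3⟩ := H1_base (a0, b0) δ0 ε0
  obtain ⟨b4, b5, b6⟩ := H2_base a0 b0 δ0 ε0 ha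
  obtain ⟨b7, b8⟩ := R1 (IJ_smooth H1_smooth 0 1) (IJ_smooth H1_smooth 1 1)
    (fun y x δ ε => H1_ratio y x δ ε) (a0, b0) δ0 ε0
  obtain ⟨b9, b10⟩ := R1 (IJ_smooth (H2_smooth ha) 0 1) (IJ_smooth (H2_smooth ha) 1 1)
    (fun y x δ ε => H2_ratio ha y x δ ε) (a0, b0) δ0 ε0
  set α1 := b0 / UU ε0 a0 ^ 3 with hα1
  set α2 := δ0 ^ 2 * (gg ε0 a0 - a0 / UU ε0 a0 ^ 3) - 3 * a0 * b0 ^ 2 / UU ε0 a0 ^ 5 with hα2
  set g := gg ε0 a0 with hg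
  set s1 := x1 + x2 - x3 - x4 with hs1
  set s2 := x1 * x2 - x3 * x4 with hs2
  set v1 := ε ^ 2 * α1 * s1 - (-δ ^ 2 + ε ^ 2 * α2) * s2 with hv1
  set v2 := (1 + ε ^ 2 * (-g)) * s1 - 2 * (ε ^ 2 * α1) * s2 with hv2
  have hdKeq : dK (ε ^ 2 + δ ^ 2) x1 x2 x3 x4 = |s1| + (ε ^ 2 + δ ^ 2) * |s2| := rfl
  have hmax : k * dK (ε ^ 2 + δ ^ 2) x1 x2 x3 x4 ≤ max |v1| |v2| := by
    rw [hdKeq]
    exact hlin (1 + ε ^ 2 * (-g)) (ε ^ 2 * α1) (-δ ^ 2 + ε ^ 2 * α2) (ε ^ 2 + δ ^ 2) s1 s2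
      (max |v1| |v2|) hκ hκM u1 u2 u3 u4 u5 (le_max_left _ _) (le_max_right _ _)
  have hηK : (ε ^ 2 + δ ^ 2) * (η * dS x1 x2 x3 x4) ≤
      k / 2 * dK (ε ^ 2 + δ ^ 2) x1 x2 x3 x4 := by
    calc (ε ^ 2 + δ ^ 2) * (η * dS x1 x2 x3 x4) = η * ((ε ^ 2 + δ ^ 2) * dS x1 x2 x3 x4) := by ring
      _ ≤ η * ((1 + M) * dK (ε ^ 2 + δ ^ 2) x1 x2 x3 x4) :=
          mul_le_mul_of_nonneg_left hdSK hηp.le
      _ = k / 2 * dK (ε ^ 2 + δ ^ 2) x1 x2 x3 x4 := by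
          rw [hη]; field_simp
  have hcomb : ∀ p q P Q : ℝ, |p - P| ≤ η * dS x1 x2 x3 x4 → |q - Q| ≤ η * dS x1 x2 x3 x4 →
      |(δ ^ 2 * p + ε ^ 2 * q) - (δ ^ 2 * P + ε ^ 2 * Q)| ≤
        k / 2 * dK (ε ^ 2 + δ ^ 2) x1 x2 x3 x4 := by
    intro p q P Q hp hq
    refine le_trans ?_ hηK
    rw [show (δ ^ 2 * p + ε ^ 2 * q) - (δ ^ 2 * P + ε ^ 2 * Q) =
      δ ^ 2 * (p - P) + ε ^ 2 * (q - Q) by ring]
    refine (abs_add_le _ _).trans ?_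
    rw [abs_mul, abs_mul, abs_of_nonneg (sq_nonneg δ), abs_of_nonneg (sq_nonneg ε)]
    have t1 := mul_le_mul_of_nonneg_left hp (sq_nonneg δ)
    have t2 := mul_le_mul_of_nonneg_left hq (sq_nonneg ε)
    linarith
  -- upper bounds
  have hupper : ∀ (j : Fin 2) (y : ℝ × ℝ), |y.1 - a0| ≤ 2 * r → |y.2 - b0| ≤ 2 * r →
      |S4 (fun x => IJ (PM a0) j 2 (pt y x δ ε)) x1 x2 x3 x4| ≤
        Ls * (1 + M) * dK (ε ^ 2 + δ ^ 2) x1 x2 x3 x4 ∧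
      |S4 (fun x => IJ (PM a0) j 3 (pt y x δ ε)) x1 x2 x3 x4| ≤
        Ls * (1 + M) * dK (ε ^ 2 + δ ^ 2) x1 x2 x3 x4 := by
    intro j y hy1 hy2
    have hgen : ∀ k : ℕ, (k = 2 ∨ k = 3) →
        |δ ^ 2 * S4 (fun x => IJ H1 j k (pt y x δ ε)) x1 x2 x3 x4 +
          ε ^ 2 * S4 (fun x => IJ (H2 a0) j k (pt y x δ ε)) x1 x2 x3 x4| ≤
        Ls * (1 + M) * dK (ε ^ 2 + δ ^ 2) x1 x2 x3 x4 := by
      intro k hk
      obtain ⟨l1, l2⟩ := hLle j k hk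
      have t1 := (hL1b j k r hrp hr1 δ ε y hδ hε hy1 hy2 x1 x2 x3 x4 h1 h2 h3 h4).trans
        (mul_le_mul_of_nonneg_right l1 hdS0)
      have t2 := (hL2b j k r hrp hr1 δ ε y hδ hε hy1 hy2 x1 x2 x3 x4 h1 h2 h3 h4).trans
        (mul_le_mul_of_nonneg_right l2 hdS0)
      refine (abs_add_le _ _).trans ?_
      rw [abs_mul, abs_mul, abs_of_nonneg (sq_nonneg δ), abs_of_nonneg (sq_nonneg ε)]
      have t3 := mul_le_mul_of_nonneg_left t1 (sq_nonneg δ)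
      have t4 := mul_le_mul_of_nonneg_left t2 (sq_nonneg ε)
      have t5 := mul_le_mul_of_nonneg_left hdSK hLsp.le
      linarith
    constructor
    · have e : S4 (fun x => IJ (PM a0) j 2 (pt y x δ ε)) x1 x2 x3 x4 =
          δ ^ 2 * S4 (fun x => IJ H1 j 2 (pt y x δ ε)) x1 x2 x3 x4 +
          ε ^ 2 * S4 (fun x => IJ (H2 a0) j 2 (pt y x δ ε)) x1 x2 x3 x4 := by
        unfold S4
        simp only [PM_two ha]
        ring
      rw [e]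
      exact hgen 2 (Or.inl rfl)
    · have e : S4 (fun x => IJ (PM a0) j 3 (pt y x δ ε)) x1 x2 x3 x4 =
          δ ^ 2 * S4 (fun x => IJ H1 j 3 (pt y x δ ε)) x1 x2 x3 x4 +
          ε ^ 2 * S4 (fun x => IJ (H2 a0) j 3 (pt y x δ ε)) x1 x2 x3 x4 := by
        unfold S4
        simp only [PM_three ha]
        ring
      rw [e]
      exact hgen 3 (Or.inr rfl)
  rcases le_total |v2| |v1| with hvu | hvu
  · refine ⟨0, fun y hy1 hy2 => ⟨?_, hupper 0 y hy1 hy2⟩⟩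
    rw [max_eq_left hvu] at hmax
    have t1 := apA1 r hrp r3 δ ε y hδ hε hy1 hy2 x1 x2 x3 x4 h1 h2 h3 h4
    have t2 := apA2 r hrp r5 δ ε y hδ hε hy1 hy2 x1 x2 x3 x4 h1 h2 h3 h4
    rw [b2, b3] at t1
    rw [b5, b6] at t2
    have t3 := hcomb _ _ _ _ t1 t2
    have e1 : δ ^ 2 * (0 * (x1 + x2 - x3 - x4) - -1 * (x1 * x2 - x3 * x4)) +
        ε ^ 2 * (α1 * (x1 + x2 - x3 - x4) - α2 * (x1 * x2 - x3 * x4)) = v1 := by
      rw [hv1, hs1, hs2]; ring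
    rw [e1] at t3
    have e2 : S4 (fun x => IJ (PM a0) 0 1 (pt y x δ ε)) x1 x2 x3 x4 =
        δ ^ 2 * S4 (fun x => IJ H1 0 1 (pt y x δ ε)) x1 x2 x3 x4 +
        ε ^ 2 * S4 (fun x => IJ (H2 a0) 0 1 (pt y x δ ε)) x1 x2 x3 x4 := by
      unfold S4
      simp only [PM_one ha, if_true]
      ring
    rw [e2]
    have t4 := tri_aux v1 (δ ^ 2 * S4 (fun x => IJ H1 0 1 (pt y x δ ε)) x1 x2 x3 x4 +
        ε ^ 2 * S4 (fun x => IJ (H2 a0) 0 1 (pt y x δ ε)) x1 x2 x3 x4)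
    linarith
  · refine ⟨1, fun y hy1 hy2 => ⟨?_, hupper 1 y hy1 hy2⟩⟩
    rw [max_eq_right hvu] at hmax
    have t1 := apB1 r hrp r4 δ ε y hδ hε hy1 hy2 x1 x2 x3 x4 h1 h2 h3 h4
    have t2 := apB2 r hrp r6 δ ε y hδ hε hy1 hy2 x1 x2 x3 x4 h1 h2 h3 h4
    rw [b7, b8, b1, b2] at t1
    rw [b9, b10, b4, b5] at t2
    have t3 := hcomb _ _ _ _ t1 t2
    have e1 : δ ^ 2 * (0 * (x1 + x2 - x3 - x4) - 2 * 0 * (x1 * x2 - x3 * x4)) +
        ε ^ 2 * (-g * (x1 + x2 - x3 - x4) - 2 * α1 * (x1 * x2 - x3 * x4)) = v2 - s1 := by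
      rw [hv2, hs1, hs2]; ring
    rw [e1] at t3
    have e2 : S4 (fun x => IJ (PM a0) 1 1 (pt y x δ ε)) x1 x2 x3 x4 =
        s1 + (δ ^ 2 * S4 (fun x => IJ H1 1 1 (pt y x δ ε)) x1 x2 x3 x4 +
        ε ^ 2 * S4 (fun x => IJ (H2 a0) 1 1 (pt y x δ ε)) x1 x2 x3 x4) := by
      unfold S4
      simp only [PM_one ha]
      rw [hs1]
      simp
      ring
    rw [e2]
    have t4 := tri_aux v2 (s1 + (δ ^ 2 * S4 (fun x => IJ H1 1 1 (pt y x δ ε)) x1 x2 x3 x4 +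
        ε ^ 2 * S4 (fun x => IJ (H2 a0) 1 1 (pt y x δ ε)) x1 x2 x3 x4))
    rw [show (s1 + (δ ^ 2 * S4 (fun x => IJ H1 1 1 (pt y x δ ε)) x1 x2 x3 x4 +
        ε ^ 2 * S4 (fun x => IJ (H2 a0) 1 1 (pt y x δ ε)) x1 x2 x3 x4)) - v2 =
        (δ ^ 2 * S4 (fun x => IJ H1 1 1 (pt y x δ ε)) x1 x2 x3 x4 +
        ε ^ 2 * S4 (fun x => IJ (H2 a0) 1 1 (pt y x δ ε)) x1 x2 x3 x4) - (v2 - s1) by ring] at t4
    linarith

/-- the integrand -/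
noncomputable def Fz (a0 b0 r δ ε t : ℝ) (A : ℝ → ℂ) (x1 x2 x3 x4 : ℝ) (y : ℝ × ℝ) : ℂ :=
  ((chi ((y.1 - a0) / r) * chi ((y.2 - b0) / r) : ℝ) : ℂ) *
        (A (wv δ y x1) * A (wv δ y x2) * conj (A (wv δ y x3)) * conj (A (wv δ y x4))) *
        cexp (I * ((t * (phz ε (wv δ y x1) + phz ε (wv δ y x2) - phz ε (wv δ y x3) -
          phz ε (wv δ y x4)) : ℝ) : ℂ))

lemma Fz_line (j : Fin 2) {a0 b0 r δ ε t : ℝ} (ha : 0 < a0) (hr : 0 < r) (A : ℝ → ℂ)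
    {x1 x2 x3 x4 : ℝ}
    (hreg : ∀ (y : ℝ × ℝ) (x : ℝ), |y.1 - a0| ≤ 2 * r → |y.2 - b0| ≤ 2 * r → |x| ≤ r →
      a0 / 2 ≤ wv δ y x)
    (h1 : |x1| ≤ r) (h2 : |x2| ≤ r) (h3 : |x3| ≤ r) (h4 : |x4| ≤ r) (s u : ℝ) :
    Fz a0 b0 r δ ε t A x1 x2 x3 x4 (yy j s u) =
      cexp (I * ((t * S4 (fun x => IJ (PM a0) j 0 (pt (yy j s u) x δ ε)) x1 x2 x3 x4 : ℝ) : ℂ)) *
        am j a0 b0 r δ u A x1 x2 x3 x4 s := by
  by_cases hc : 2 * r ≤ |u - pb j a0 b0| ∨ 2 * r ≤ |s - cb j a0 b0|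
  · rw [am_zero hr hc, mul_zero]
    unfold Fz
    rw [chi_yy]
    rcases hc with h | h
    · rw [chi_zero (s := (u - pb j a0 b0) / r)]
      · simp
      · rw [abs_div, abs_of_pos hr, le_div_iff₀ hr]; exact h
    · rw [chi_zero (s := (s - cb j a0 b0) / r)]
      · simp
      · rw [abs_div, abs_of_pos hr, le_div_iff₀ hr]; exact h
  · push Not at hc
    obtain ⟨c1, c2⟩ := box_iff j a0 b0 s u (2 * r) hc.2.le hc.1.le
    have e2 : S4 (fun x => IJ (PM a0) j 0 (pt (yy j s u) x δ ε)) x1 x2 x3 x4 =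
        phz ε (wv δ (yy j s u) x1) + phz ε (wv δ (yy j s u) x2) - phz ε (wv δ (yy j s u) x3) -
          phz ε (wv δ (yy j s u) x4) := by
      show PM a0 (pt (yy j s u) x1 δ ε) + PM a0 (pt (yy j s u) x2 δ ε) -
        PM a0 (pt (yy j s u) x3 δ ε) - PM a0 (pt (yy j s u) x4 δ ε) = _
      rw [PM_eq ha _ _ _ _ (hreg _ _ c1 c2 h1), PM_eq ha _ _ _ _ (hreg _ _ c1 c2 h2),
        PM_eq ha _ _ _ _ (hreg _ _ c1 c2 h3), PM_eq ha _ _ _ _ (hreg _ _ c1 c2 h4)]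
    unfold Fz am
    rw [chi_yy]
    have e1 : (s - cb j a0 b0) / r = 1 / r * s + (-(cb j a0 b0 / r)) := by ring
    rw [e1, e2, Complex.ofReal_mul (chi _), mul_comm]

lemma phz_cont (ε : ℝ) : Continuous (phz ε) := by
  unfold phz
  fun_prop

lemma Fz_cont (a0 b0 r δ ε t : ℝ) {A : ℝ → ℂ} (hA : AC A) (x1 x2 x3 x4 : ℝ) :
    Continuous (Fz a0 b0 r δ ε t A x1 x2 x3 x4) := by
  have hc := chi_contDiff.continuous
  have hAc := A_cont hA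
  have hp := phz_cont ε
  have hw := wv_cont δ
  have w1 := hw x1
  have w2 := hw x2
  have w3 := hw x3
  have w4 := hw x4
  unfold Fz
  have e1 : Continuous (fun y : ℝ × ℝ => chi ((y.1 - a0) / r)) := hc.comp (by fun_prop)
  have e2 : Continuous (fun y : ℝ × ℝ => chi ((y.2 - b0) / r)) := hc.comp (by fun_prop)
  have f1 := hAc.comp w1
  have f2 := hAc.comp w2
  have f3 := Complex.continuous_conj.comp (hAc.comp w3)
  have f4 := Complex.continuous_conj.comp (hAc.comp w4)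
  have g1 := hp.comp w1
  have g2 := hp.comp w2
  have g3 := hp.comp w3
  have g4 := hp.comp w4
  have e3 : Continuous (fun y : ℝ × ℝ => ((chi ((y.1 - a0) / r) * chi ((y.2 - b0) / r) : ℝ) : ℂ)) :=
    Complex.continuous_ofReal.comp (e1.mul e2)
  have e4 : Continuous (fun y : ℝ × ℝ => cexp (I * ((t * (phz ε (wv δ y x1) + phz ε (wv δ y x2) -
      phz ε (wv δ y x3) - phz ε (wv δ y x4)) : ℝ) : ℂ))) :=
    Complex.continuous_exp.comp (continuous_const.mul (Complex.continuous_ofReal.comp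
      (continuous_const.mul (((g1.add g2).sub g3).sub g4))))
  exact (e3.mul (((f1.mul f2).mul f3).mul f4)).mul e4

lemma Fz_zero {a0 b0 r δ ε t : ℝ} (hr : 0 < r) {A : ℝ → ℂ} {x1 x2 x3 x4 : ℝ} {y : ℝ × ℝ}
    (h : 2 * r ≤ |y.1 - a0| ∨ 2 * r ≤ |y.2 - b0|) : Fz a0 b0 r δ ε t A x1 x2 x3 x4 y = 0 := by
  unfold Fz
  rcases h with h | h
  · rw [chi_zero (s := (y.1 - a0) / r)]
    · simp
    · rw [abs_div, abs_of_pos hr, le_div_iff₀ hr]; exact h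
  · rw [chi_zero (s := (y.2 - b0) / r)]
    · simp
    · rw [abs_div, abs_of_pos hr, le_div_iff₀ hr]; exact h

lemma Fz_int (a0 b0 : ℝ) {r : ℝ} (hr : 0 < r) (δ ε t : ℝ) {A : ℝ → ℂ} (hA : AC A)
    (x1 x2 x3 x4 : ℝ) : Integrable (Fz a0 b0 r δ ε t A x1 x2 x3 x4) := by
  refine (Fz_cont a0 b0 r δ ε t hA x1 x2 x3 x4).integrable_of_hasCompactSupport ?_
  refine HasCompactSupport.intro (K := Icc (a0 - 2 * r) (a0 + 2 * r) ×ˢ Icc (b0 - 2 * r) (b0 + 2 * r))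
    (isCompact_Icc.prod isCompact_Icc) ?_
  intro y hy
  apply Fz_zero hr
  by_contra hcon
  push Not at hcon
  obtain ⟨h1, h2⟩ := hcon
  rw [abs_lt] at h1 h2
  exact hy ⟨⟨by linarith [h1.1], by linarith [h1.2]⟩, ⟨by linarith [h2.1], by linarith [h2.2]⟩⟩

theorem locKz_of (h1 : NonStat) (h2 : SumLem) : LocKz := by
  intro a0 b0 δ0 ε0 ha hb
  obtain ⟨r, c0, L0, hr, hr1, hc0, hL0, hreg, hph⟩ := phase_boundsz h2 (ε0 := ε0) ha hb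
  obtain ⟨C1, hC1, hns⟩ := h1
  obtain ⟨Cχ, hCχ1, hCχ⟩ := chi_B2
  set N := 256 * Cχ * (1 / r) ^ 2 with hN
  have hN0 : 0 ≤ N := by positivity
  set L := max 1 (L0 / c0) with hL
  have hL1 : 1 ≤ L := le_max_left _ _
  have hLc : L0 ≤ L * c0 := by
    have : L0 / c0 ≤ L := le_max_right _ _
    rwa [div_le_iff₀ hc0] at this
  set K := 16 * (C1 * L ^ 2 * N / c0 ^ 2) with hK
  have hK0 : 0 ≤ K := by positivity
  refine ⟨r, 64 + 4 * K, hr, hr1, by positivity, ?_⟩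
  intro δ ε t hδ hε ht A hA x1 x2 x3 x4 hx1 hx2 hx3 hx4
  change ‖∫ y : ℝ × ℝ, Fz a0 b0 r δ ε t A x1 x2 x3 x4 y‖ ≤ _
  have hint := Fz_int a0 b0 hr δ ε t hA x1 x2 x3 x4
  have hreg' : ∀ (y : ℝ × ℝ) (x : ℝ), |y.1 - a0| ≤ 2 * r → |y.2 - b0| ≤ 2 * r → |x| ≤ r →
      a0 / 2 ≤ wv δ y x := fun y x h1 h2 h3 => hreg δ y x hδ h1 h2 h3
  have hline0 : ∀ (j : Fin 2) (s u : ℝ), Fz a0 b0 r δ ε t A x1 x2 x3 x4 (yy j s u) =
      cexp (I * ((t * S4 (fun x => IJ (PM a0) j 0 (pt (yy j s u) x δ ε)) x1 x2 x3 x4 : ℝ) : ℂ)) *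
        am j a0 b0 r δ u A x1 x2 x3 x4 s := fun j s u =>
    Fz_line j ha hr A hreg' hx1 hx2 hx3 hx4 s u
  obtain ⟨j, hj⟩ := hph δ ε hδ hε x1 x2 x3 x4 hx1 hx2 hx3 hx4
  have hκ : 0 ≤ ε ^ 2 + δ ^ 2 := by positivity
  have hD := dK_nonneg hκ x1 x2 x3 x4
  set D := dK (ε ^ 2 + δ ^ 2) x1 x2 x3 x4 with hDdef
  have hT : 0 ≤ t * D := by positivity
  -- reduction to lines
  have hred : ∀ M : ℝ, 0 ≤ M → (∀ u, |u - pb j a0 b0| ≤ 2 * r →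
      ‖∫ s, Fz a0 b0 r δ ε t A x1 x2 x3 x4 (yy j s u)‖ ≤ M) →
      ‖∫ y : ℝ × ℝ, Fz a0 b0 r δ ε t A x1 x2 x3 x4 y‖ ≤ 4 * r * M := by
    intro M hM hu
    rw [fubini j hint]
    refine int_le (c := pb j a0 b0) hr hM hu ?_
    intro u hu
    have : ∀ s, Fz a0 b0 r δ ε t A x1 x2 x3 x4 (yy j s u) = 0 := by
      intro s
      rw [hline0, am_zero hr (Or.inl hu.le), mul_zero]
    simp only [this, integral_zero]
  rcases le_or_gt (t * D) 1 with hTD | hTD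
  · -- trivial bound
    have h3 : ‖∫ y : ℝ × ℝ, Fz a0 b0 r δ ε t A x1 x2 x3 x4 y‖ ≤ 4 * r * (4 * r * 1) := by
      refine hred _ (by positivity) fun u hu => ?_
      refine int_le (c := cb j a0 b0) hr zero_le_one ?_ ?_
      · intro s _
        rw [hline0, norm_mul, norm_cexp_I, one_mul]
        exact am_norm hA
      · intro s hs
        rw [hline0, am_zero hr (Or.inr hs.le), mul_zero]
    have h4 : 4 * r * (4 * r * 1) ≤ 16 := by nlinarith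
    refine h3.trans (h4.trans ?_)
    rw [le_div_iff₀ (by positivity)]
    have h5 : (1 + t * D) ^ 2 ≤ 4 := by nlinarith
    nlinarith
  · -- non-stationary phase
    have hDpos : 0 < D := by
      rcases hD.eq_or_lt with h | h
      · rw [← h, mul_zero] at hTD; linarith
      · exact h
    have ht0 : 0 < t := by linarith
    set m := c0 * D with hm
    have hm0 : 0 < m := by positivity
    have hline : ∀ u, |u - pb j a0 b0| ≤ 2 * r →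
        ‖∫ s, Fz a0 b0 r δ ε t A x1 x2 x3 x4 (yy j s u)‖ ≤
          C1 * L ^ 2 * N * ((cb j a0 b0 + 2 * r) - (cb j a0 b0 - 2 * r)) / (t * m) ^ 2 := by
      intro u hu
      obtain ⟨f1, f2, cf2, df, df1, bf⟩ := am_B2 j a0 b0 hr hr1 δ u hA hCχ (hx1.trans hr1)
        (hx2.trans hr1) (hx3.trans hr1) (hx4.trans hr1)
      have hQ : ∀ k s, HasDerivAt
          (fun s => S4 (fun x => IJ (PM a0) j k (pt (yy j s u) x δ ε)) x1 x2 x3 x4)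
          (S4 (fun x => IJ (PM a0) j (k + 1) (pt (yy j s u) x δ ε)) x1 x2 x3 x4) s := by
        intro k s
        have hs := IJ_smooth (PM_smooth ha) j k
        exact (((has_y hs j s u x1 δ ε).add (has_y hs j s u x2 δ ε)).sub
          (has_y hs j s u x3 δ ε)).sub (has_y hs j s u x4 δ ε)
      have h3 := hns (cb j a0 b0 - 2 * r) (cb j a0 b0 + 2 * r) m L N t
        (fun s => S4 (fun x => IJ (PM a0) j 0 (pt (yy j s u) x δ ε)) x1 x2 x3 x4)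
        (fun s => S4 (fun x => IJ (PM a0) j 1 (pt (yy j s u) x δ ε)) x1 x2 x3 x4)
        (fun s => S4 (fun x => IJ (PM a0) j 2 (pt (yy j s u) x δ ε)) x1 x2 x3 x4)
        (fun s => S4 (fun x => IJ (PM a0) j 3 (pt (yy j s u) x δ ε)) x1 x2 x3 x4)
        (am j a0 b0 r δ u A x1 x2 x3 x4) f1 f2 (by linarith) hm0 hL1 hN0 ht0 (hQ 0) (hQ 1) (hQ 2)
        (continuous_iff_continuousAt.2 fun s => (hQ 3 s).continuousAt) df df1 cf2 ?_ ?_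
      · refine le_trans (le_of_eq ?_) h3
        congr 2
        funext s
        rw [hline0]
      · intro s hs
        apply am_zero hr
        right
        by_contra hcon
        push Not at hcon
        rw [abs_lt] at hcon
        exact hs ⟨by linarith [hcon.1], by linarith [hcon.2]⟩
      · intro s hs
        have hs' : |s - cb j a0 b0| ≤ 2 * r := abs_le.2 ⟨by linarith [hs.1], by linarith [hs.2]⟩
        obtain ⟨b1, b2⟩ := box_iff j a0 b0 s u (2 * r) hs' hu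
        obtain ⟨q1, q2, q3⟩ := hj (yy j s u) b1 b2
        have hLm : L0 * D ≤ L * m := by
          rw [hm, ← mul_assoc]
          exact mul_le_mul_of_nonneg_right hLc hD
        exact ⟨q1, q2.trans hLm, q3.trans hLm, bf s⟩
    have h3 := hred _ (div_nonneg (mul_nonneg (by positivity) (by linarith)) (by positivity)) hline
    refine h3.trans ?_
    have e1 : 4 * r * (C1 * L ^ 2 * N * ((cb j a0 b0 + 2 * r) - (cb j a0 b0 - 2 * r)) / (t * m) ^ 2) =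
        r ^ 2 * (K / (t * D) ^ 2) := by
      rw [hK, hm]
      field_simp
      ring
    rw [e1]
    have h4 : r ^ 2 * (K / (t * D) ^ 2) ≤ K / (t * D) ^ 2 := by
      have : 0 ≤ K / (t * D) ^ 2 := by positivity
      have hr2 : r ^ 2 ≤ 1 := by nlinarith
      nlinarith
    refine h4.trans ?_
    rw [div_le_div_iff₀ (by positivity) (by positivity)]
    have h5 : (1 + t * D) ^ 2 ≤ 4 * (t * D) ^ 2 := by nlinarith
    have h6 : 0 ≤ (t * D) ^ 2 := by positivity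
    nlinarith [mul_le_mul_of_nonneg_left h5 hK0]

/-- MZ-1: the kernel bound near a point -/
theorem locKz : LocKz := locKz_of Pool.Agent.TH999.MV.nonstat Pool.Agent.TH606.MV.sum_lem

end Pool.Agent.TH267.MZ
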