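import Pool.Agent.TH407.MZ.Defs
import Pool.Agent.TH883.MV.LocK
set_option autoImplicit false

/-! # Kernel bound near a point, degenerate curvature, part 1: the phase (project MZ of helper407) -/

namespace Pool.Agent.TH267.MZ

open MeasureTheory Set Complex
open scoped ENNReal NNReal Real ContDiff ComplexConjugate
open Pool.Agent.TH407 Pool.Agent.TH407.MZ Pool.Agent.TH407.MV Pool.Agent.TH883.MV

/-- a smooth function, equal to `w` for `w ≥ a / 2`, and at least `a / 4` -/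
noncomputable def mm (a w : ℝ) : ℝ :=
  a / 4 + (w - a / 4) * Real.smoothTransition ((w - a / 4) / (a / 4))

lemma mm_eq {a w : ℝ} (ha : 0 < a) (h : a / 2 ≤ w) : mm a w = w := by
  unfold mm
  rw [Real.smoothTransition.one_of_one_le]
  · ring
  · rw [le_div_iff₀ (by positivity)]; linarith

lemma mm_pos {a : ℝ} (ha : 0 < a) (w : ℝ) : 0 < mm a w := by
  unfold mm
  rcases le_total w (a / 4) with h | h
  · rw [Real.smoothTransition.zero_of_nonpos]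
    · linarith
    · exact div_nonpos_of_nonpos_of_nonneg (by linarith) (by positivity)
  · have h1 := Real.smoothTransition.nonneg ((w - a / 4) / (a / 4))
    have h2 : 0 ≤ (w - a / 4) * Real.smoothTransition ((w - a / 4) / (a / 4)) :=
      mul_nonneg (by linarith) h1
    linarith

lemma mm_smooth (a : ℝ) : ContDiff ℝ ∞ (mm a) := by
  unfold mm
  have h : ContDiff ℝ ∞ Real.smoothTransition := Real.smoothTransition.contDiff
  have h2 : ContDiff ℝ ∞ (fun w : ℝ => Real.smoothTransition ((w - a / 4) / (a / 4))) :=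
    h.comp (by fun_prop)
  exact contDiff_const.add ((contDiff_id.sub contDiff_const).mul h2)

/-- the argument of the phase function -/
noncomputable def W (z : E5) : ℝ := wv z.2.2.2.1 (z.1, z.2.1) z.2.2.1

lemma W_smooth : ContDiff ℝ ∞ W := by
  unfold W wv cd
  fun_prop (disch := first | (intro z; positivity) | positivity)

/-- the coefficient of `δ ^ 2` -/
noncomputable def H1 (z : E5) : ℝ :=
  -(z.2.2.1 ^ 2 * (1 / (√(1 + z.2.2.2.1 ^ 2 * z.2.2.1 ^ 2) *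
    (√(1 + z.2.2.2.1 ^ 2 * z.2.2.1 ^ 2) + 1)))) * (z.1 + z.2.2.1 * z.2.1)

lemma H1_smooth : ContDiff ℝ ∞ H1 := by
  unfold H1
  fun_prop (disch := first | (intro z; positivity) | positivity)

/-- the coefficient of `ε ^ 2` -/
noncomputable def H2 (a : ℝ) (z : E5) : ℝ :=
  1 / (√(mm a (W z) ^ 2 + z.2.2.2.2 ^ 2) + mm a (W z))

lemma H2_smooth {a : ℝ} (ha : 0 < a) : ContDiff ℝ ∞ (H2 a) := by
  have h1 : ContDiff ℝ ∞ (fun z : E5 => mm a (W z)) := (mm_smooth a).comp W_smooth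
  have hp : ∀ z : E5, 0 < mm a (W z) := fun z => mm_pos ha _
  have h2 : ContDiff ℝ ∞ (fun z : E5 => mm a (W z) ^ 2 + z.2.2.2.2 ^ 2) :=
    (h1.pow 2).add (by fun_prop)
  have h3 : ContDiff ℝ ∞ (fun z : E5 => √(mm a (W z) ^ 2 + z.2.2.2.2 ^ 2)) :=
    h2.sqrt fun z => by have := hp z; positivity
  unfold H2
  exact contDiff_const.div (h3.add h1) fun z => by have := hp z; positivity

/-- the modified phase -/
noncomputable def PM (a : ℝ) (z : E5) : ℝ :=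
  (z.1 + z.2.2.1 * z.2.1) + (z.2.2.2.1 ^ 2 * H1 z + z.2.2.2.2 ^ 2 * H2 a z)

lemma PM_smooth {a : ℝ} (ha : 0 < a) : ContDiff ℝ ∞ (PM a) := by
  have h1 := H1_smooth
  have h2 := H2_smooth ha
  unfold PM
  fun_prop

/-- iterated derivatives in `y_j` -/
noncomputable def IJ (F : E5 → ℝ) (j : Fin 2) : ℕ → E5 → ℝ
  | 0 => F
  | (k + 1) => Dv (ev j) (IJ F j k)

lemma IJ_smooth {F : E5 → ℝ} (hF : ContDiff ℝ ∞ F) (j : Fin 2) (k : ℕ) :
    ContDiff ℝ ∞ (IJ F j k) := by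
  induction k with
  | zero => exact hF
  | succ k ih => exact Dv_smooth ih _

lemma cd_eq (δ x : ℝ) : cd δ x = 1 - δ ^ 2 * (x ^ 2 * (1 / (√(1 + δ ^ 2 * x ^ 2) *
    (√(1 + δ ^ 2 * x ^ 2) + 1)))) := by
  unfold cd
  have hp : 0 < 1 + δ ^ 2 * x ^ 2 := by positivity
  have hV : 0 < √(1 + δ ^ 2 * x ^ 2) := Real.sqrt_pos.2 hp
  have hV2 : √(1 + δ ^ 2 * x ^ 2) ^ 2 = 1 + δ ^ 2 * x ^ 2 := Real.sq_sqrt hp.le
  set V := √(1 + δ ^ 2 * x ^ 2)
  field_simp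
  linear_combination -hV2

lemma PM_eq {a : ℝ} (ha : 0 < a) (y : ℝ × ℝ) (x δ ε : ℝ) (h : a / 2 ≤ wv δ y x) :
    PM a (pt y x δ ε) = phz ε (wv δ y x) := by
  have hW : W (pt y x δ ε) = wv δ y x := rfl
  have e1 : wv δ y x = (y.1 + x * y.2) + δ ^ 2 * H1 (pt y x δ ε) := by
    show cd δ x * (y.1 + x * y.2) = _
    rw [cd_eq]
    unfold H1 pt
    ring
  have e2 : PM a (pt y x δ ε) = (y.1 + x * y.2) + (δ ^ 2 * H1 (pt y x δ ε) +
    ε ^ 2 * H2 a (pt y x δ ε)) := rfl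
  rw [e2, ← add_assoc, ← e1]
  have e3 : H2 a (pt y x δ ε) = 1 / (√(wv δ y x ^ 2 + ε ^ 2) + wv δ y x) := by
    unfold H2
    rw [hW, mm_eq ha h]; rfl
  rw [e3]
  unfold phz
  have hw : 0 < wv δ y x := by linarith
  have hp : 0 < wv δ y x ^ 2 + ε ^ 2 := by positivity
  have hU : 0 < √(wv δ y x ^ 2 + ε ^ 2) := Real.sqrt_pos.2 hp
  have hU2 : √(wv δ y x ^ 2 + ε ^ 2) ^ 2 = wv δ y x ^ 2 + ε ^ 2 := Real.sq_sqrt hp.le
  set U := √(wv δ y x ^ 2 + ε ^ 2)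
  have hne : U + wv δ y x ≠ 0 := by positivity
  field_simp
  linear_combination -hU2

lemma exists_yy (j : Fin 2) (y : ℝ × ℝ) : ∃ s u, y = yy j s u := by
  fin_cases j
  · exact ⟨y.1, y.2, rfl⟩
  · exact ⟨y.2, y.1, rfl⟩

/-- differentiation of `l + δ² G₁ + ε² G₂` -/
lemma step (j : Fin 2) {F G1 G2 : E5 → ℝ} (hF : ContDiff ℝ ∞ F) (hG1 : ContDiff ℝ ∞ G1)
    (hG2 : ContDiff ℝ ∞ G2) (l : ℝ × ℝ → ℝ → ℝ) (l' : ℝ → ℝ)
    (hl : ∀ s u x, HasDerivAt (fun s => l (yy j s u) x) (l' x) s)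
    (h : ∀ y x δ ε, F (pt y x δ ε) = l y x + (δ ^ 2 * G1 (pt y x δ ε) + ε ^ 2 * G2 (pt y x δ ε)))
    (y : ℝ × ℝ) (x δ ε : ℝ) : Dv (ev j) F (pt y x δ ε) =
      l' x + (δ ^ 2 * Dv (ev j) G1 (pt y x δ ε) + ε ^ 2 * Dv (ev j) G2 (pt y x δ ε)) := by
  obtain ⟨s, u, rfl⟩ := exists_yy j y
  have h1 := has_y hF j s u x δ ε
  have h2 := (hl s u x).add (((has_y hG1 j s u x δ ε).const_mul (δ ^ 2)).add
    ((has_y hG2 j s u x δ ε).const_mul (ε ^ 2)))
  have h3 : HasDerivAt (fun s => F (pt (yy j s u) x δ ε)) _ s :=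
    h2.congr_of_eventuallyEq (Filter.Eventually.of_forall fun s => h _ x δ ε)
  exact h1.unique h3

lemma PM_one {a : ℝ} (ha : 0 < a) (j : Fin 2) (y : ℝ × ℝ) (x δ ε : ℝ) :
    IJ (PM a) j 1 (pt y x δ ε) = (if j = 0 then 1 else x) +
      (δ ^ 2 * IJ H1 j 1 (pt y x δ ε) + ε ^ 2 * IJ (H2 a) j 1 (pt y x δ ε)) := by
  refine step j (PM_smooth ha) H1_smooth (H2_smooth ha) (fun y x => y.1 + x * y.2)
    (fun x => if j = 0 then 1 else x) ?_ (fun y x δ ε => rfl) y x δ ε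
  intro s u x
  fin_cases j
  · simp only [yy]
    simpa using (hasDerivAt_id s).add_const (x * u)
  · simp only [yy]
    simpa using ((hasDerivAt_id s).const_mul x).const_add u

lemma PM_two {a : ℝ} (ha : 0 < a) (j : Fin 2) (y : ℝ × ℝ) (x δ ε : ℝ) :
    IJ (PM a) j 2 (pt y x δ ε) =
      δ ^ 2 * IJ H1 j 2 (pt y x δ ε) + ε ^ 2 * IJ (H2 a) j 2 (pt y x δ ε) := by
  have h := step j (IJ_smooth (PM_smooth ha) j 1) (IJ_smooth H1_smooth j 1)
    (IJ_smooth (H2_smooth ha) j 1) (fun _ x => if j = 0 then 1 else x) (fun _ => 0)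
    (fun s u x => hasDerivAt_const s _) (fun y x δ ε => PM_one ha j y x δ ε) y x δ ε
  rw [zero_add] at h
  exact h

lemma PM_three {a : ℝ} (ha : 0 < a) (j : Fin 2) (y : ℝ × ℝ) (x δ ε : ℝ) :
    IJ (PM a) j 3 (pt y x δ ε) =
      δ ^ 2 * IJ H1 j 3 (pt y x δ ε) + ε ^ 2 * IJ (H2 a) j 3 (pt y x δ ε) := by
  have h := step j (IJ_smooth (PM_smooth ha) j 2) (IJ_smooth H1_smooth j 2)
    (IJ_smooth (H2_smooth ha) j 2) (fun _ x => 0) (fun _ => 0)
    (fun s u x => hasDerivAt_const s _) (fun y x δ ε => by rw [zero_add]; exact PM_two ha j y x δ ε)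
    y x δ ε
  rw [zero_add] at h
  exact h

/-- a function of `y₁ + x y₂`, `x`, `δ`, `ε` -/
lemma ratio {F : E5 → ℝ} (hF : ContDiff ℝ ∞ F)
    (hr : ∀ y x δ ε, F (pt y x δ ε) = F (pt (y.1 + x * y.2, 0) x δ ε)) (y : ℝ × ℝ) (x δ ε : ℝ) :
    Dv (ev 1) F (pt y x δ ε) = x * Dv (ev 0) F (pt y x δ ε) := by
  obtain ⟨s, u⟩ := y
  have hf : ∀ σ, HasDerivAt (fun σ => F (pt (σ, 0) x δ ε)) (Dv (ev 0) F (pt (σ, 0) x δ ε)) σ :=
    fun σ => has_y hF 0 σ 0 x δ ε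
  have h0 := has_y hF 0 s u x δ ε
  have h1 := has_y hF 1 u s x δ ε
  have k0 : HasDerivAt (fun s : ℝ => s + x * u) 1 s := by
    simpa using (hasDerivAt_id s).add_const (x * u)
  have k1 : HasDerivAt (fun u : ℝ => s + x * u) x u := by
    simpa using ((hasDerivAt_id u).const_mul x).const_add s
  have c0 := (hf (s + x * u)).comp s k0
  have c1 := (hf (s + x * u)).comp u k1
  have e0 := h0.unique (c0.congr_of_eventuallyEq
    (Filter.Eventually.of_forall fun t => hr (t, u) x δ ε))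
  have e1 := h1.unique (c1.congr_of_eventuallyEq
    (Filter.Eventually.of_forall fun t => hr (s, t) x δ ε))
  have e0' : Dv (ev 0) F (pt (s, u) x δ ε) = Dv (ev 0) F (pt (s + x * u, 0) x δ ε) * 1 := e0
  have e1' : Dv (ev 1) F (pt (s, u) x δ ε) = Dv (ev 0) F (pt (s + x * u, 0) x δ ε) * x := e1
  rw [e0', e1']
  ring

/-- derivatives at `x = 0` of `x F₀` -/
lemma R1 {F0 F1 : E5 → ℝ} (hF0 : ContDiff ℝ ∞ F0) (hF1 : ContDiff ℝ ∞ F1)
    (h : ∀ y x δ ε, F1 (pt y x δ ε) = x * F0 (pt y x δ ε)) (y : ℝ × ℝ) (δ ε : ℝ) :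
    Dv ex F1 (pt y 0 δ ε) = F0 (pt y 0 δ ε) ∧
      Dv ex (Dv ex F1) (pt y 0 δ ε) = 2 * Dv ex F0 (pt y 0 δ ε) := by
  have hR : ∀ x, Dv ex F1 (pt y x δ ε) = F0 (pt y x δ ε) + x * Dv ex F0 (pt y x δ ε) := by
    intro x
    have h1 := has_x hF1 y x δ ε
    have h2 := (hasDerivAt_id x).mul (has_x hF0 y x δ ε)
    have h3 : HasDerivAt (fun x => F1 (pt y x δ ε)) _ x :=
      h2.congr_of_eventuallyEq (Filter.Eventually.of_forall fun x => h y x δ ε)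
    rw [h1.unique h3]
    simp
  refine ⟨by rw [hR]; simp, ?_⟩
  have h1 := has_x (Dv_smooth hF1 ex) y 0 δ ε
  have h2 := (has_x hF0 y 0 δ ε).add
    ((hasDerivAt_id (0 : ℝ)).mul (has_x (Dv_smooth hF0 ex) y 0 δ ε))
  have h3 : HasDerivAt (fun x => Dv ex F1 (pt y x δ ε)) _ 0 :=
    h2.congr_of_eventuallyEq (Filter.Eventually.of_forall fun x => hR x)
  rw [h1.unique h3]
  simp
  ring

end Pool.Agent.TH267.MZ
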