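import Pool.Agent.TH267.MZ.LocKzA
set_option autoImplicit false

/-! # Kernel bound near a point, degenerate curvature, part 2: values at the base point -/

namespace Pool.Agent.TH267.MZ

open MeasureTheory Set Complex
open scoped ENNReal NNReal Real ContDiff ComplexConjugate
open Pool.Agent.TH407 Pool.Agent.TH407.MZ Pool.Agent.TH407.MV Pool.Agent.TH883.MV

/-- `√(w² + ε²)` -/
noncomputable def UU (ε w : ℝ) : ℝ := √(w ^ 2 + ε ^ 2)

lemma UU_pos {ε w : ℝ} (hw : 0 < w) : 0 < UU ε w := Real.sqrt_pos.2 (by positivity)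

lemma UU_sq (ε w : ℝ) : UU ε w ^ 2 = w ^ 2 + ε ^ 2 := Real.sq_sqrt (by positivity)

lemma UU_deriv {ε w : ℝ} (hw : 0 < w) : HasDerivAt (UU ε) (w / UU ε w) w := by
  have h1 : HasDerivAt (fun w : ℝ => w ^ 2 + ε ^ 2) (2 * w) w := by
    simpa using (hasDerivAt_pow 2 w).add_const (ε ^ 2)
  have h2 := h1.sqrt (by positivity)
  refine h2.congr_deriv ?_
  have := UU_pos (ε := ε) hw
  unfold UU at *
  field_simp

/-- `1 / (U (U + w))` -/
noncomputable def gg (ε w : ℝ) : ℝ := 1 / (UU ε w * (UU ε w + w))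

lemma hh_deriv {ε w : ℝ} (hw : 0 < w) :
    HasDerivAt (fun w => 1 / (UU ε w + w)) (-gg ε w) w := by
  have hU := UU_pos (ε := ε) hw
  have h1 := (UU_deriv (ε := ε) hw).add (hasDerivAt_id w)
  have h2 := (hasDerivAt_const w (1 : ℝ)).div h1 (by
    simp only [Pi.add_apply, id]; positivity)
  refine h2.congr_deriv ?_
  simp only [Pi.add_apply, id, gg]
  field_simp
  ring

lemma gg_deriv {ε w : ℝ} (hw : 0 < w) : HasDerivAt (gg ε) (-(1 / UU ε w ^ 3)) w := by
  have hU := UU_pos (ε := ε) hw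
  have h1 := (UU_deriv (ε := ε) hw).mul ((UU_deriv (ε := ε) hw).add (hasDerivAt_id w))
  have h2 := (hasDerivAt_const w (1 : ℝ)).div h1 (by
    simp only [Pi.add_apply, Pi.mul_apply, id]; positivity)
  refine h2.congr_deriv ?_
  simp only [Pi.add_apply, Pi.mul_apply, id]
  have h3 := UU_sq ε w
  have hne : UU ε w + w ≠ 0 := by positivity
  field_simp
  ring

lemma g1_deriv {ε w : ℝ} (hw : 0 < w) :
    HasDerivAt (fun w => -(1 / UU ε w ^ 3)) (3 * w / UU ε w ^ 5) w := by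
  have hU := UU_pos (ε := ε) hw
  have h1 := (UU_deriv (ε := ε) hw).pow 3
  have h2 := ((hasDerivAt_const w (1 : ℝ)).div h1 (by simp only [Pi.pow_apply]; positivity)).neg
  refine h2.congr_deriv ?_
  simp only [Pi.pow_apply]
  field_simp
  norm_num
  ring

lemma cd_deriv (δ x : ℝ) : HasDerivAt (cd δ) (-(δ ^ 2 * x * cd δ x ^ 3)) x := by
  have hp : 0 < 1 + δ ^ 2 * x ^ 2 := by positivity
  have hV : 0 < √(1 + δ ^ 2 * x ^ 2) := Real.sqrt_pos.2 hp
  have h1 : HasDerivAt (fun x : ℝ => 1 + δ ^ 2 * x ^ 2) (δ ^ 2 * (2 * x)) x := by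
    simpa using ((hasDerivAt_pow 2 x).const_mul (δ ^ 2)).const_add 1
  have h2 := (h1.sqrt hp.ne').inv hV.ne'
  refine h2.congr_deriv ?_
  unfold cd
  field_simp

lemma cd_zero (δ : ℝ) : cd δ 0 = 1 := by simp [cd]

/-- derivative of `cd` -/
noncomputable def c1 (δ x : ℝ) : ℝ := -(δ ^ 2 * x * cd δ x ^ 3)

lemma c1_deriv (δ : ℝ) : HasDerivAt (c1 δ) (-δ ^ 2) 0 := by
  have h1 := (((hasDerivAt_id (0 : ℝ)).const_mul (δ ^ 2)).mul ((cd_deriv δ 0).pow 3)).neg
  refine h1.congr_deriv ?_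
  simp [cd_zero]

/-- derivative of `wv` in `x` -/
noncomputable def w1 (δ a b x : ℝ) : ℝ := c1 δ x * (a + x * b) + cd δ x * b

lemma lin_deriv (a b x : ℝ) : HasDerivAt (fun x : ℝ => a + x * b) b x := by
  simpa using ((hasDerivAt_id x).mul_const b).const_add a

lemma wv_deriv (δ a b x : ℝ) : HasDerivAt (fun x => wv δ (a, b) x) (w1 δ a b x) x := by
  have h1 := (cd_deriv δ x).mul (lin_deriv a b x)
  exact h1

lemma w1_deriv (δ a b : ℝ) : HasDerivAt (w1 δ a b) (-δ ^ 2 * a) 0 := by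
  have h1 := ((c1_deriv δ).mul (lin_deriv a b 0)).add ((cd_deriv δ 0).mul_const b)
  refine h1.congr_deriv ?_
  simp [c1]

/-- the first derivative of `H2` in `y₁` -/
lemma H2_y {a0 : ℝ} (ha : 0 < a0) (y : ℝ × ℝ) (x δ ε : ℝ) (h : a0 / 2 < wv δ y x) :
    IJ (H2 a0) 0 1 (pt y x δ ε) = -(cd δ x * gg ε (wv δ y x)) := by
  obtain ⟨s, u⟩ := y
  have h1 := has_y (H2_smooth ha) 0 s u x δ ε
  have hw : 0 < wv δ (s, u) x := by linarith
  have k1 : HasDerivAt (fun s => wv δ (s, u) x) (cd δ x) s := by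
    have := ((hasDerivAt_id s).add_const (x * u)).const_mul (cd δ x)
    rw [mul_one] at this
    exact this
  have k2 := (hh_deriv (ε := ε) hw).comp s k1
  have hev : ∀ᶠ s' in nhds s, a0 / 2 < wv δ (s', u) x :=
    k1.continuousAt.eventually (lt_mem_nhds h)
  have k3 : HasDerivAt (fun s => H2 a0 (pt (yy 0 s u) x δ ε))
      (-gg ε (wv δ (s, u) x) * cd δ x) s := by
    refine k2.congr_of_eventuallyEq ?_
    filter_upwards [hev] with s' hs'
    show H2 a0 (pt (s', u) x δ ε) = 1 / (UU ε (wv δ (s', u) x) + wv δ (s', u) x)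
    have hW : W (pt (s', u) x δ ε) = wv δ (s', u) x := rfl
    unfold H2
    rw [hW, mm_eq ha hs'.le]
    rfl
  have e : IJ (H2 a0) 0 1 (pt (s, u) x δ ε) = Dv (ev 0) (H2 a0) (pt (yy 0 s u) x δ ε) := rfl
  rw [e, h1.unique k3]
  ring

section base
variable (a b δ ε : ℝ)

/-- base values for `H2` -/
lemma H2_base (ha : 0 < a) :
    IJ (H2 a) 0 1 (pt (a, b) 0 δ ε) = -gg ε a ∧
    Dv ex (IJ (H2 a) 0 1) (pt (a, b) 0 δ ε) = b / UU ε a ^ 3 ∧
    Dv ex (Dv ex (IJ (H2 a) 0 1)) (pt (a, b) 0 δ ε) =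
      δ ^ 2 * (gg ε a - a / UU ε a ^ 3) - 3 * a * b ^ 2 / UU ε a ^ 5 := by
  have hw0 : wv δ (a, b) 0 = a := by simp [wv, cd_zero]
  have hsm := IJ_smooth (H2_smooth ha) 0 1
  have hopen : ∀ x, a / 2 < wv δ (a, b) x → ∀ᶠ x' in nhds x, a / 2 < wv δ (a, b) x' := fun x hx =>
    (wv_deriv δ a b x).continuousAt.eventually (lt_mem_nhds hx)
  have h00 : a / 2 < wv δ (a, b) 0 := by rw [hw0]; linarith
  -- first derivative
  have hd : ∀ x, a / 2 < wv δ (a, b) x → Dv ex (IJ (H2 a) 0 1) (pt (a, b) x δ ε) =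
      -(c1 δ x * gg ε (wv δ (a, b) x) +
        cd δ x * (-(1 / UU ε (wv δ (a, b) x) ^ 3) * w1 δ a b x)) := by
    intro x hx
    have hw : 0 < wv δ (a, b) x := by linarith
    have h1 := has_x hsm (a, b) x δ ε
    have h2 := ((cd_deriv δ x).mul ((gg_deriv (ε := ε) hw).comp x (wv_deriv δ a b x))).neg
    have h3 : HasDerivAt (fun x => IJ (H2 a) 0 1 (pt (a, b) x δ ε))
        (-(c1 δ x * gg ε (wv δ (a, b) x) +
          cd δ x * (-(1 / UU ε (wv δ (a, b) x) ^ 3) * w1 δ a b x))) x := by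
      refine HasDerivAt.congr_of_eventuallyEq h2 ?_
      filter_upwards [hopen x hx] with x' hx'
      exact H2_y ha (a, b) x' δ ε hx'
    exact h1.unique h3
  refine ⟨?_, ?_, ?_⟩
  · rw [H2_y ha _ _ _ _ h00, hw0, cd_zero, one_mul]
  · rw [hd 0 h00, hw0]
    simp [c1, w1, cd_zero]
    ring
  · have h1 := has_x (Dv_smooth hsm ex) (a, b) 0 δ ε
    have hw : 0 < wv δ (a, b) 0 := by rw [hw0]; exact ha
    have h2 := (((c1_deriv δ).mul ((gg_deriv (ε := ε) hw).comp 0 (wv_deriv δ a b 0))).add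
      ((cd_deriv δ 0).mul (((g1_deriv (ε := ε) hw).comp 0 (wv_deriv δ a b 0)).mul
        (w1_deriv δ a b)))).neg
    have h3 := h2.congr_of_eventuallyEq
      (f₁ := fun x => Dv ex (IJ (H2 a) 0 1) (pt (a, b) x δ ε)) (by
        filter_upwards [hopen 0 h00] with x' hx'
        exact hd x' hx')
    rw [h1.unique h3]
    simp only [Function.comp_apply, hw0, cd_zero, c1, w1]
    have hU := UU_pos (ε := ε) ha
    ring

end base

end Pool.Agent.TH267.MZ
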