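import Pool.Agent.TH267.MZ.LocKzB
set_option autoImplicit false

/-! # Kernel bound near a point, degenerate curvature, part 3: bounds for the phase -/

namespace Pool.Agent.TH267.MZ

open MeasureTheory Set Complex
open scoped ENNReal NNReal Real ContDiff ComplexConjugate
open Pool.Agent.TH407 Pool.Agent.TH407.MZ Pool.Agent.TH407.MV Pool.Agent.TH883.MV

/-- the factor of `H1` -/
noncomputable def qq (δ x : ℝ) : ℝ := 1 / (√(1 + δ ^ 2 * x ^ 2) * (√(1 + δ ^ 2 * x ^ 2) + 1))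

lemma qq_smooth (δ : ℝ) : ContDiff ℝ ∞ (qq δ) := by
  unfold qq
  fun_prop (disch := first | (intro z; positivity) | positivity)

lemma qq_zero (δ : ℝ) : qq δ 0 = 1 / 2 := by
  unfold qq
  norm_num

lemma H1_y (y : ℝ × ℝ) (x δ ε : ℝ) : IJ H1 0 1 (pt y x δ ε) = -(x ^ 2 * qq δ x) := by
  obtain ⟨s, u⟩ := y
  have h1 := has_y H1_smooth 0 s u x δ ε
  have k1 : HasDerivAt (fun s : ℝ => -(x ^ 2 * qq δ x) * (s + x * u)) (-(x ^ 2 * qq δ x)) s := by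
    simpa using ((hasDerivAt_id s).add_const (x * u)).const_mul (-(x ^ 2 * qq δ x))
  exact h1.unique k1

/-- base values for `H1` -/
lemma H1_base (y : ℝ × ℝ) (δ ε : ℝ) :
    IJ H1 0 1 (pt y 0 δ ε) = 0 ∧ Dv ex (IJ H1 0 1) (pt y 0 δ ε) = 0 ∧
    Dv ex (Dv ex (IJ H1 0 1)) (pt y 0 δ ε) = -1 := by
  have hq := qq_smooth δ
  have hq1 : ContDiff ℝ ∞ (deriv (qq δ)) := (contDiff_infty_iff_deriv.1 hq).2
  have dq : ∀ x, HasDerivAt (qq δ) (deriv (qq δ) x) x := fun x =>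
    (hq.differentiable (by norm_cast) x).hasDerivAt
  have dq1 : HasDerivAt (deriv (qq δ)) (deriv (deriv (qq δ)) 0) 0 :=
    (hq1.differentiable (by norm_cast) 0).hasDerivAt
  have hsm := IJ_smooth H1_smooth 0 1
  have hd : ∀ x, Dv ex (IJ H1 0 1) (pt y x δ ε) =
      -(2 * x * qq δ x + x ^ 2 * deriv (qq δ) x) := by
    intro x
    have h1 := has_x hsm y x δ ε
    have h2 := (((hasDerivAt_pow 2 x).mul (dq x)).neg).congr_of_eventuallyEq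
      (f₁ := fun x => IJ H1 0 1 (pt y x δ ε)) (Filter.Eventually.of_forall fun x => H1_y y x δ ε)
    rw [h1.unique h2]
    simp
  refine ⟨by rw [H1_y]; simp, by rw [hd]; simp, ?_⟩
  have h1 := has_x (Dv_smooth hsm ex) y 0 δ ε
  have h2 := ((((hasDerivAt_id (0 : ℝ)).const_mul 2).mul (dq 0)).add
    ((hasDerivAt_pow 2 (0 : ℝ)).mul dq1)).neg
  have h3 := h2.congr_of_eventuallyEq
    (f₁ := fun x => Dv ex (IJ H1 0 1) (pt y x δ ε)) (Filter.Eventually.of_forall fun x => hd x)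
  rw [h1.unique h3]
  simp [qq_zero]

lemma H1_ratio (y : ℝ × ℝ) (x δ ε : ℝ) :
    IJ H1 1 1 (pt y x δ ε) = x * IJ H1 0 1 (pt y x δ ε) :=
  ratio H1_smooth (fun y x δ ε => by unfold H1 pt; simp) y x δ ε

lemma H2_ratio {a : ℝ} (ha : 0 < a) (y : ℝ × ℝ) (x δ ε : ℝ) :
    IJ (H2 a) 1 1 (pt y x δ ε) = x * IJ (H2 a) 0 1 (pt y x δ ε) :=
  ratio (H2_smooth ha) (fun y x δ ε => by unfold H2 W wv pt; simp) y x δ ε

/-- elementary linear algebra -/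
lemma lin_alg {C M c : ℝ} (hC : 1 ≤ C) (hM : 0 ≤ M) (hc : 0 < c) :
    ∃ k : ℝ, 0 < k ∧ ∀ X0 p1 p2 κ s1 s2 w : ℝ, 0 ≤ κ → κ ≤ M → c ≤ X0 → X0 ≤ C →
      |p1| ≤ C * κ → |p2| ≤ C * κ → c * κ ≤ 2 * p1 ^ 2 - X0 * p2 →
      |p1 * s1 - p2 * s2| ≤ w → |X0 * s1 - 2 * p1 * s2| ≤ w →
      k * (|s1| + κ * |s2|) ≤ w := by
  set K1 := C * (1 + M) / c with hK1
  set K2 := (1 + 2 * C * K1) / c with hK2
  have hK1p : 0 < K1 := by positivity
  have hK2p : 0 < K2 := by positivity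
  refine ⟨1 / (K1 + K2), by positivity, ?_⟩
  intro X0 p1 p2 κ s1 s2 w hκ hκM hX hXC hp1 hp2 hD hv1 hv2
  have hw : 0 ≤ w := (abs_nonneg _).trans hv1
  have hX0 : 0 < X0 := hc.trans_le hX
  have e : (2 * p1 ^ 2 - X0 * p2) * s2 = X0 * (p1 * s1 - p2 * s2) - p1 * (X0 * s1 - 2 * p1 * s2) := by
    ring
  have h1 : (c * κ) * |s2| ≤ (C * (1 + M)) * w := by
    have hDp : 0 ≤ 2 * p1 ^ 2 - X0 * p2 := (mul_nonneg hc.le hκ).trans hD
    calc (c * κ) * |s2| ≤ (2 * p1 ^ 2 - X0 * p2) * |s2| :=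
          mul_le_mul_of_nonneg_right hD (abs_nonneg _)
      _ = |(2 * p1 ^ 2 - X0 * p2) * s2| := by rw [abs_mul, abs_of_nonneg hDp]
      _ ≤ |X0 * (p1 * s1 - p2 * s2)| + |p1 * (X0 * s1 - 2 * p1 * s2)| := by
          rw [e]; exact abs_sub _ _
      _ ≤ C * w + C * M * w := by
          rw [abs_mul, abs_mul, abs_of_pos hX0]
          have t1 : X0 * |p1 * s1 - p2 * s2| ≤ C * w :=
            mul_le_mul hXC hv1 (abs_nonneg _) (by linarith)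
          have t2 : |p1| * |X0 * s1 - 2 * p1 * s2| ≤ C * M * w := by
            refine mul_le_mul (hp1.trans ?_) hv2 (abs_nonneg _) (by positivity)
            exact mul_le_mul_of_nonneg_left hκM (by linarith)
          linarith
      _ = (C * (1 + M)) * w := by ring
  have h2 : κ * |s2| ≤ K1 * w := by
    rw [hK1, div_mul_eq_mul_div, le_div_iff₀ hc]
    linarith
  have h3 : |s1| ≤ K2 * w := by
    rw [hK2, div_mul_eq_mul_div, le_div_iff₀ hc]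
    have t1 : |X0 * s1| ≤ |X0 * s1 - 2 * p1 * s2| + |2 * p1 * s2| := by
      have := abs_add_le (X0 * s1 - 2 * p1 * s2) (2 * p1 * s2)
      rwa [sub_add_cancel] at this
    rw [abs_mul, abs_of_pos hX0, abs_mul, abs_mul, abs_two] at t1
    have t2 : |p1| * |s2| ≤ C * (κ * |s2|) := by
      calc |p1| * |s2| ≤ (C * κ) * |s2| := mul_le_mul_of_nonneg_right hp1 (abs_nonneg _)
        _ = C * (κ * |s2|) := by ring
    have t3 : C * (κ * |s2|) ≤ C * (K1 * w) := mul_le_mul_of_nonneg_left h2 (by linarith)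
    have t4 : |s1| * c ≤ X0 * |s1| := by
      rw [mul_comm]; exact mul_le_mul_of_nonneg_right hX (abs_nonneg _)
    nlinarith
  rw [div_mul_eq_mul_div, one_mul, div_le_iff₀ (by positivity)]
  nlinarith

/-- positivity of the determinant -/
lemma det_low {a0 b0 δ0 ε0 : ℝ} (ha : 0 < a0) (hb : b0 ≠ 0 ∨ δ0 ≠ 0) :
    ∃ ρ c C : ℝ, 0 < ρ ∧ ρ ≤ 1 ∧ 0 < c ∧ 1 ≤ C ∧ ∀ δ ε : ℝ, |δ - δ0| ≤ ρ → |ε - ε0| ≤ ρ →
      c ≤ 1 + ε ^ 2 * (-gg ε0 a0) ∧ 1 + ε ^ 2 * (-gg ε0 a0) ≤ C ∧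
      |ε ^ 2 * (b0 / UU ε0 a0 ^ 3)| ≤ C * (ε ^ 2 + δ ^ 2) ∧
      |-δ ^ 2 + ε ^ 2 * (δ0 ^ 2 * (gg ε0 a0 - a0 / UU ε0 a0 ^ 3) - 3 * a0 * b0 ^ 2 / UU ε0 a0 ^ 5)| ≤
        C * (ε ^ 2 + δ ^ 2) ∧
      c * (ε ^ 2 + δ ^ 2) ≤ 2 * (ε ^ 2 * (b0 / UU ε0 a0 ^ 3)) ^ 2 - (1 + ε ^ 2 * (-gg ε0 a0)) *
        (-δ ^ 2 + ε ^ 2 * (δ0 ^ 2 * (gg ε0 a0 - a0 / UU ε0 a0 ^ 3) -
          3 * a0 * b0 ^ 2 / UU ε0 a0 ^ 5)) := by
  have hU := UU_pos (ε := ε0) ha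
  have hU2 := UU_sq ε0 a0
  set U := UU ε0 a0 with hUdef
  have hg : gg ε0 a0 = 1 / (U * (U + a0)) := rfl
  set g := gg ε0 a0 with hgdef
  have hgp : 0 < g := by rw [hg]; positivity
  -- `ε₀² g = 1 - a₀ / U`
  have hεg : ε0 ^ 2 * g = 1 - a0 / U := by
    rw [hg]
    have h1 : ε0 ^ 2 = (U - a0) * (U + a0) := by linear_combination -hU2
    rw [h1]
    field_simp
  have hP : 1 + ε0 ^ 2 * (-g) = a0 / U := by linarith
  set α1 := b0 / U ^ 3 with hα1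
  set α2 := δ0 ^ 2 * (g - a0 / U ^ 3) - 3 * a0 * b0 ^ 2 / U ^ 5 with hα2
  set C := 1 + |α1| + |α2| with hC
  have hC1 : 1 ≤ C := by rw [hC]; linarith [abs_nonneg α1, abs_nonneg α2]
  -- the three upper bounds are always true
  have hup : ∀ δ ε : ℝ, 1 + ε ^ 2 * (-g) ≤ C ∧ |ε ^ 2 * α1| ≤ C * (ε ^ 2 + δ ^ 2) ∧
      |-δ ^ 2 + ε ^ 2 * α2| ≤ C * (ε ^ 2 + δ ^ 2) := by
    intro δ ε
    have a1 := abs_nonneg α1
    have a2 := abs_nonneg α2
    have e2 := sq_nonneg ε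
    have d2 := sq_nonneg δ
    refine ⟨?_, ?_, ?_⟩
    · have : 0 ≤ ε ^ 2 * g := by positivity
      linarith
    · rw [abs_mul, abs_of_nonneg e2]
      have : ε ^ 2 * |α1| ≤ ε ^ 2 * C := mul_le_mul_of_nonneg_left (by rw [hC]; linarith) e2
      have : 0 ≤ C * δ ^ 2 := by positivity
      linarith
    · refine (abs_add_le _ _).trans ?_
      rw [abs_neg, abs_of_nonneg d2, abs_mul, abs_of_nonneg e2]
      have t1 : ε ^ 2 * |α2| ≤ ε ^ 2 * C := mul_le_mul_of_nonneg_left (by rw [hC]; linarith) e2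
      have t2 : δ ^ 2 * 1 ≤ δ ^ 2 * C := mul_le_mul_of_nonneg_left hC1 d2
      linarith
  -- continuity of the first coefficient
  have hPpos : 0 < a0 / U := by positivity
  have hcont1 : ContinuousAt (fun ε : ℝ => 1 + ε ^ 2 * (-g)) ε0 := by fun_prop
  obtain ⟨ρ1, hρ1, hc1⟩ := Metric.continuousAt_iff.1 hcont1 (a0 / U / 2) (by positivity)
  have hP1 : ∀ ε, |ε - ε0| ≤ ρ1 / 2 → a0 / U / 2 ≤ 1 + ε ^ 2 * (-g) := by
    intro ε hε
    have h1 := hc1 (x := ε) (by rw [Real.dist_eq]; linarith)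
    rw [Real.dist_eq, abs_lt, hP] at h1
    linarith [h1.1]
  rcases eq_or_ne δ0 0 with hδ | hδ
  · -- `δ₀ = 0`
    have hb' : b0 ≠ 0 := by
      rcases hb with h | h
      · exact h
      · exact absurd hδ h
    have hα2n : α2 = -(3 * a0 * b0 ^ 2 / U ^ 5) := by rw [hα2, hδ]; ring
    set β := 3 * a0 * b0 ^ 2 / U ^ 5 with hβ
    have hβp : 0 < β := by
      have : 0 < b0 ^ 2 := by positivity
      positivity
    refine ⟨min 1 (ρ1 / 2), a0 / U / 2 * min 1 β, C, by positivity, min_le_left _ _,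
      by positivity, hC1, ?_⟩
    intro δ ε hδ' hε'
    obtain ⟨u1, u2, u3⟩ := hup δ ε
    have hPl := hP1 ε (hε'.trans (min_le_right _ _))
    have hm1 : min 1 β ≤ 1 := min_le_left _ _
    have hm2 : min 1 β ≤ β := min_le_right _ _
    have hm0 : 0 < min 1 β := by positivity
    refine ⟨?_, u1, u2, u3, ?_⟩
    · nlinarith
    · rw [hα2n]
      have e2 := sq_nonneg ε
      have d2 := sq_nonneg δ
      have t1 : min 1 β * (ε ^ 2 + δ ^ 2) ≤ δ ^ 2 + ε ^ 2 * β := by nlinarith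
      have t2 : 0 ≤ δ ^ 2 + ε ^ 2 * β := by positivity
      have t3 : a0 / U / 2 * (min 1 β * (ε ^ 2 + δ ^ 2)) ≤
          (1 + ε ^ 2 * (-g)) * (δ ^ 2 + ε ^ 2 * β) :=
        mul_le_mul hPl t1 (by positivity) (by linarith)
      have t4 : 0 ≤ 2 * (ε ^ 2 * α1) ^ 2 := by positivity
      nlinarith
  · -- `δ₀ ≠ 0`
    have hkey : 0 < 2 * (ε0 ^ 2 * α1) ^ 2 - (1 + ε0 ^ 2 * (-g)) * (-δ0 ^ 2 + ε0 ^ 2 * α2) := by
      have e1 : -δ0 ^ 2 + ε0 ^ 2 * α2 =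
          -(δ0 ^ 2 * (a0 / U + ε0 ^ 2 * a0 / U ^ 3) + ε0 ^ 2 * (3 * a0 * b0 ^ 2 / U ^ 5)) := by
        rw [hα2]
        have : ε0 ^ 2 * (δ0 ^ 2 * (g - a0 / U ^ 3) - 3 * a0 * b0 ^ 2 / U ^ 5) =
            δ0 ^ 2 * (ε0 ^ 2 * g) - δ0 ^ 2 * (ε0 ^ 2 * a0 / U ^ 3) -
              ε0 ^ 2 * (3 * a0 * b0 ^ 2 / U ^ 5) := by ring
        rw [this, hεg]
        ring
      rw [e1, hP]
      have h1 : 0 < δ0 ^ 2 := by positivity
      have h2 : 0 < δ0 ^ 2 * (a0 / U + ε0 ^ 2 * a0 / U ^ 3) := by positivity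
      have h3 : 0 ≤ ε0 ^ 2 * (3 * a0 * b0 ^ 2 / U ^ 5) := by positivity
      have h4 : 0 < a0 / U * (δ0 ^ 2 * (a0 / U + ε0 ^ 2 * a0 / U ^ 3) +
        ε0 ^ 2 * (3 * a0 * b0 ^ 2 / U ^ 5)) := by positivity
      have h5 : 0 ≤ 2 * (ε0 ^ 2 * α1) ^ 2 := by positivity
      linarith
    set Dt : ℝ × ℝ → ℝ := fun p => 2 * (p.2 ^ 2 * α1) ^ 2 -
      (1 + p.2 ^ 2 * (-g)) * (-p.1 ^ 2 + p.2 ^ 2 * α2) with hDt
    have hcont : ContinuousAt Dt (δ0, ε0) := by fun_prop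
    obtain ⟨ρ2, hρ2, hc2⟩ := Metric.continuousAt_iff.1 hcont (Dt (δ0, ε0) / 2) (half_pos hkey)
    set M := (|ε0| + 1) ^ 2 + (|δ0| + 1) ^ 2 with hM
    have hMp : 0 < M := by positivity
    set d := Dt (δ0, ε0) / 2 with hd
    have hdp : 0 < d := half_pos hkey
    refine ⟨min (min 1 (ρ1 / 2)) (ρ2 / 2), min (a0 / U / 2) (d / M), C, by positivity,
      (min_le_left _ _).trans (min_le_left _ _), by positivity, hC1, ?_⟩
    intro δ ε hδ' hε'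
    obtain ⟨u1, u2, u3⟩ := hup δ ε
    have hPl := hP1 ε (hε'.trans ((min_le_left _ _).trans (min_le_right _ _)))
    refine ⟨(min_le_left _ _).trans hPl, u1, u2, u3, ?_⟩
    have h1 := hc2 (x := (δ, ε)) (by
      rw [Prod.dist_eq, Real.dist_eq, Real.dist_eq]
      exact max_lt (by linarith [hδ'.trans (min_le_right _ _)])
        (by linarith [hε'.trans (min_le_right _ _)]))
    rw [Real.dist_eq, abs_lt] at h1
    have h2 : d ≤ Dt (δ, ε) := by linarith [h1.1]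
    have hε1 : |ε| ≤ |ε0| + 1 := by
      have h3 := abs_sub_abs_le_abs_sub ε ε0
      have h4 : |ε - ε0| ≤ 1 := hε'.trans ((min_le_left _ _).trans (min_le_left _ _))
      linarith
    have hδ1 : |δ| ≤ |δ0| + 1 := by
      have h3 := abs_sub_abs_le_abs_sub δ δ0
      have h4 : |δ - δ0| ≤ 1 := hδ'.trans ((min_le_left _ _).trans (min_le_left _ _))
      linarith
    have hκM : ε ^ 2 + δ ^ 2 ≤ M := by
      rw [hM, ← sq_abs ε, ← sq_abs δ]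
      exact add_le_add (pow_le_pow_left₀ (abs_nonneg _) hε1 2)
        (pow_le_pow_left₀ (abs_nonneg _) hδ1 2)
    have h5 : min (a0 / U / 2) (d / M) * (ε ^ 2 + δ ^ 2) ≤ d := by
      calc min (a0 / U / 2) (d / M) * (ε ^ 2 + δ ^ 2) ≤ d / M * M :=
            mul_le_mul (min_le_right _ _) hκM (by positivity) (by positivity)
        _ = d := by field_simp
    exact h5.trans h2

end Pool.Agent.TH267.MZ
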